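import Pool.Agent.Run7.h820.UM.Stm

/-!
# Project UM (helper820), piece LIM: the limit of a fast Cauchy sequence in the class `Σ`
-/

set_option autoImplicit false
open Complex Filter Topology Set Metric MeasureTheory

namespace Run7.h749.UM

open Run7.h820.UM
open Q90.SM (IsSig)

theorem isOpen_ext : IsOpen {z : ℂ | 1 < ‖z‖} := isOpen_lt continuous_const continuous_norm

theorem eta_le {η : ℕ → ℝ} (h : ∀ k, η (k + 1) ≤ η k / 2) (k j : ℕ) : η (k + j) ≤ η k * (1 / 2) ^ j := by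
  induction j with
  | zero => simp
  | succ j ih =>
    have := h (k + j)
    rw [← add_assoc, pow_succ]
    linarith

theorem eta_tendsto {η : ℕ → ℝ} (h0 : ∀ k, 0 < η k) (h : ∀ k, η (k + 1) ≤ η k / 2) :
    Tendsto η atTop (𝓝 0) := by
  have h1 : Tendsto (fun j : ℕ => η 0 * (1 / 2 : ℝ) ^ j) atTop (𝓝 0) := by
    have := (tendsto_pow_atTop_nhds_zero_of_lt_one (r := (1 / 2 : ℝ)) (by norm_num) (by norm_num)).const_mul (η 0)
    simpa using this
  refine squeeze_zero (fun k => (h0 k).le) (fun k => ?_) h1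
  have := eta_le h 0 k
  rwa [zero_add] at this

theorem eta_anti {η : ℕ → ℝ} (h0 : ∀ k, 0 < η k) (h : ∀ k, η (k + 1) ≤ η k / 2) {k j : ℕ} (hkj : k ≤ j) :
    η j ≤ η k := by
  obtain ⟨i, rfl⟩ := Nat.exists_eq_add_of_le hkj
  refine (eta_le h k i).trans ?_
  have h1 : (1 / 2 : ℝ) ^ i ≤ 1 := pow_le_one₀ (by norm_num) (by norm_num)
  have := mul_le_mul_of_nonneg_left h1 (h0 k).le
  linarith

/-- a fast Cauchy sequence of complex numbers -/
theorem pt {η : ℕ → ℝ} (_h0 : ∀ k, 0 < η k) (h : ∀ k, η (k + 1) ≤ η k / 2) (a : ℕ → ℂ) (m : ℝ) (hm : 0 ≤ m)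
    (K : ℕ) (ha : ∀ k, K ≤ k → ‖a (k + 1) - a k‖ ≤ η k * m) :
    Tendsto a atTop (𝓝 (limUnder atTop a)) ∧ ∀ k, K ≤ k → ‖limUnder atTop a - a k‖ ≤ 2 * η k * m := by
  have hd : ∀ k, K ≤ k → ∀ j : ℕ, dist (a (k + j)) (a (k + (j + 1))) ≤ (η k * m) * (1 / 2) ^ j := by
    intro k hk j
    rw [dist_comm, dist_eq_norm]
    have h1 := ha (k + j) (by omega)
    have h2 := mul_le_mul_of_nonneg_right (eta_le h k j) hm
    have h3 : η k * (1 / 2) ^ j * m = (η k * m) * (1 / 2) ^ j := by ring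
    rw [← h3]
    exact h1.trans h2
  have hc : Tendsto a atTop (𝓝 (limUnder atTop a)) := by
    refine tendsto_nhds_limUnder ?_
    obtain ⟨l, hl⟩ := cauchySeq_tendsto_of_complete
      (cauchySeq_of_le_geometric (1 / 2) (η K * m) (by norm_num) (hd K le_rfl))
    refine ⟨l, ?_⟩
    refine (tendsto_add_atTop_iff_nat K).1 ?_
    refine hl.congr (fun j => ?_)
    rw [add_comm]
  refine ⟨hc, fun k hk => ?_⟩
  have hc' : Tendsto (fun j => a (k + j)) atTop (𝓝 (limUnder atTop a)) := by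
    refine ((tendsto_add_atTop_iff_nat k).2 hc).congr (fun j => ?_)
    rw [add_comm]
  have := dist_le_of_le_geometric_of_tendsto₀ (1 / 2) (η k * m) (by norm_num) (hd k hk) hc'
  rw [add_zero, dist_comm, dist_eq_norm] at this
  refine this.trans (le_of_eq ?_)
  ring

/-- local uniform convergence in the exterior -/
theorem lu {η : ℕ → ℝ} (hη : Tendsto η atTop (𝓝 0)) (h0 : ∀ k, 0 < η k) (f : ℕ → ℂ → ℂ) (f' : ℂ → ℂ)
    (hb : ∀ k, ∀ z : ℂ, 1 + η k ≤ ‖z‖ → ‖f' z - f k z‖ ≤ 2 * η k * ‖z‖) :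
    TendstoLocallyUniformlyOn f f' atTop {z : ℂ | 1 < ‖z‖} := by
  rw [Metric.tendstoLocallyUniformlyOn_iff]
  intro ε hε x hx
  have hx' : 1 < ‖x‖ := hx
  refine ⟨{y : ℂ | (1 + ‖x‖) / 2 < ‖y‖} ∩ {y : ℂ | ‖y‖ < ‖x‖ + 1}, ?_, ?_⟩
  · apply mem_nhdsWithin_of_mem_nhds
    apply IsOpen.mem_nhds
    · exact (isOpen_lt continuous_const continuous_norm).inter (isOpen_lt continuous_norm continuous_const)
    · constructor
      · show (1 + ‖x‖) / 2 < ‖x‖
        linarith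
      · show ‖x‖ < ‖x‖ + 1
        linarith
  · have hp : 0 < ε / (2 * (‖x‖ + 1)) := by positivity
    filter_upwards [hη.eventually_lt_const (show (0:ℝ) < (‖x‖ - 1) / 2 by linarith),
      hη.eventually_lt_const hp] with k hk1 hk2 y hy
    have hy1 : (1 + ‖x‖) / 2 < ‖y‖ := hy.1
    have hy2 : ‖y‖ < ‖x‖ + 1 := hy.2
    rw [dist_eq_norm]
    refine lt_of_le_of_lt (hb k y (by linarith)) ?_
    rw [lt_div_iff₀ (by positivity)] at hk2
    have h1 : 2 * η k * ‖y‖ ≤ 2 * η k * (‖x‖ + 1) :=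
      mul_le_mul_of_nonneg_left hy2.le (by linarith [h0 k])
    linarith

/-- the function `v ψ(1/v)` -/
noncomputable def YY (ψ : ℂ → ℂ) (v : ℂ) : ℂ := by
  classical
  exact if v = 0 then 1 else v * ψ v⁻¹

theorem YY_zero (ψ : ℂ → ℂ) : YY ψ 0 = 1 := by simp [YY]

theorem YY_ne (ψ : ℂ → ℂ) {v : ℂ} (hv : v ≠ 0) : YY ψ v = v * ψ v⁻¹ := by simp [YY, hv]

theorem inv_ext {w : ℂ} (hw : w ∈ ball (0 : ℂ) 1) (hw0 : w ≠ 0) : 1 < ‖w⁻¹‖ := by
  rw [norm_inv]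
  exact (one_lt_inv₀ (norm_pos_iff.2 hw0)).2 (mem_ball_zero_iff.1 hw)

theorem YY_diff {ψ : ℂ → ℂ} (hd : DifferentiableOn ℂ ψ {z : ℂ | 1 < ‖z‖})
    (hb : ∃ b : ℂ, Filter.Tendsto (fun z => ψ z - z) (Bornology.cobounded ℂ) (nhds b)) :
    DifferentiableOn ℂ (YY ψ) (ball 0 1) := by
  have h0 : ball (0 : ℂ) 1 ∈ 𝓝 (0 : ℂ) := isOpen_ball.mem_nhds (mem_ball_self one_pos)
  rw [← Complex.differentiableOn_compl_singleton_and_continuousAt_iff h0]
  constructor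
  · intro w hw
    have hw0 : w ≠ 0 := hw.2
    have h1 : DifferentiableAt ℂ ψ w⁻¹ := hd.differentiableAt (isOpen_ext.mem_nhds (inv_ext hw.1 hw0))
    have h2 : DifferentiableAt ℂ (fun v : ℂ => v * ψ v⁻¹) w :=
      differentiableAt_id.mul (h1.comp w (differentiableAt_inv hw0))
    refine DifferentiableAt.differentiableWithinAt ?_
    refine h2.congr_of_eventuallyEq ?_
    filter_upwards [isOpen_ne.mem_nhds hw0] with x hx
    exact YY_ne ψ hx
  · rw [continuousAt_iff_punctured_nhds, YY_zero]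
    obtain ⟨b, hb⟩ := hb
    have h1 : Tendsto (fun w : ℂ => ψ w⁻¹ - w⁻¹) (𝓝[≠] 0) (𝓝 b) := hb.comp tendsto_inv₀_nhdsNE_zero
    have h2 : Tendsto (fun w : ℂ => w) (𝓝[≠] 0) (𝓝 0) := tendsto_id.mono_left nhdsWithin_le_nhds
    have h3 := (h2.mul h1).add_const 1
    rw [zero_mul, zero_add] at h3
    refine h3.congr' ?_
    filter_upwards [self_mem_nhdsWithin] with w hw
    have hw0 : w ≠ 0 := hw
    rw [YY_ne ψ hw0]
    field_simp
    ring

/-- local uniform convergence of the transformed functions -/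
theorem YY_lu {η : ℕ → ℝ} (hη : Tendsto η atTop (𝓝 0)) (h0 : ∀ k, 0 < η k) (f : ℕ → ℂ → ℂ) (f' : ℂ → ℂ)
    (hb : ∀ k, ∀ z : ℂ, 1 + η k ≤ ‖z‖ → ‖f' z - f k z‖ ≤ 2 * η k * ‖z‖) :
    TendstoLocallyUniformlyOn (fun k => YY (f k)) (YY f') atTop (ball 0 1) := by
  rw [Metric.tendstoLocallyUniformlyOn_iff]
  intro ε hε x hx
  have hx' : ‖x‖ < 1 := mem_ball_zero_iff.1 hx
  refine ⟨{y : ℂ | ‖y‖ < (1 + ‖x‖) / 2}, ?_, ?_⟩
  · apply mem_nhdsWithin_of_mem_nhds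
    apply IsOpen.mem_nhds
    · exact isOpen_lt continuous_norm continuous_const
    · show ‖x‖ < (1 + ‖x‖) / 2
      linarith
  · filter_upwards [hη.eventually_lt_const (show (0:ℝ) < (1 - ‖x‖) / 2 by linarith),
      hη.eventually_lt_const (show (0:ℝ) < ε / 2 by linarith)] with k hk1 hk2 y hy
    have hy1 : ‖y‖ < (1 + ‖x‖) / 2 := hy
    rw [dist_eq_norm]
    by_cases hy0 : y = 0
    · rw [hy0, YY_zero, YY_zero, sub_self, norm_zero]
      exact hε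
    · rw [YY_ne _ hy0, YY_ne _ hy0, ← mul_sub, norm_mul]
      have hyp : 0 < ‖y‖ := norm_pos_iff.2 hy0
      have h1 : 1 + η k ≤ ‖y⁻¹‖ := by
        rw [norm_inv, le_inv_comm₀ (by linarith [h0 k]) hyp, ← one_div, le_div_iff₀ (by linarith [h0 k])]
        have hk0 := h0 k
        nlinarith [norm_nonneg x]
      have h2 := hb k y⁻¹ h1
      have h3 : ‖y‖ * ‖f' y⁻¹ - f k y⁻¹‖ ≤ ‖y‖ * (2 * η k * ‖y⁻¹‖) :=
        mul_le_mul_of_nonneg_left h2 hyp.le
      have h4 : ‖y‖ * (2 * η k * ‖y⁻¹‖) = 2 * η k := by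
        rw [norm_inv]
        field_simp
      linarith

theorem t_LIM (hDQ : S_DQ) : S_LIM := by
  intro ψ h η hS h0 hη _ hc
  have hηt := eta_tendsto h0 hη
  have hev : ∀ z : ℂ, 1 < ‖z‖ → ∃ K, 1 + η K ≤ ‖z‖ := by
    intro z hz
    obtain ⟨K, hK⟩ := (hηt.eventually_lt_const (show (0:ℝ) < ‖z‖ - 1 by linarith)).exists
    exact ⟨K, by linarith⟩
  have hmono : ∀ {z : ℂ} {K : ℕ}, 1 + η K ≤ ‖z‖ → ∀ k, K ≤ k → 1 + η k ≤ ‖z‖ := by
    intro z K hz k hk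
    linarith [eta_anti h0 hη hk]
  let ψ' : ℂ → ℂ := fun z => limUnder atTop (fun k => ψ k z)
  let h' : ℂ → ℂ := fun z => limUnder atTop (fun k => h k z)
  have Pψ : ∀ z : ℂ, ∀ K, 1 + η K ≤ ‖z‖ → Tendsto (fun k => ψ k z) atTop (𝓝 (ψ' z)) ∧
      ∀ k, K ≤ k → ‖ψ' z - ψ k z‖ ≤ 2 * η k * ‖z‖ := by
    intro z K hK
    exact pt h0 hη (fun k => ψ k z) ‖z‖ (norm_nonneg _) K (fun k hk => (hc k z (hmono hK k hk)).2)
  have Ph : ∀ z : ℂ, ∀ K, 1 + η K ≤ ‖z‖ → Tendsto (fun k => h k z) atTop (𝓝 (h' z)) ∧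
      ∀ k, K ≤ k → ‖h' z - h k z‖ ≤ 2 * η k * 1 := by
    intro z K hK
    exact pt h0 hη (fun k => h k z) 1 zero_le_one K
      (fun k hk => by rw [mul_one]; exact (hc k z (hmono hK k hk)).1)
  have Bψ : ∀ k, ∀ z : ℂ, 1 + η k ≤ ‖z‖ → ‖ψ' z - ψ k z‖ ≤ 2 * η k * ‖z‖ :=
    fun k z hz => (Pψ z k hz).2 k le_rfl
  have Bh : ∀ k, ∀ z : ℂ, 1 + η k ≤ ‖z‖ → ‖h' z - h k z‖ ≤ 2 * η k := by
    intro k z hz
    have := (Ph z k hz).2 k le_rfl
    rwa [mul_one] at this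
  have Bh' : ∀ k, ∀ z : ℂ, 1 + η k ≤ ‖z‖ → ‖h' z - h k z‖ ≤ 2 * η k * ‖z‖ := by
    intro k z hz
    refine (Bh k z hz).trans ?_
    have hk := h0 k
    nlinarith
  have Lψ := lu hηt h0 ψ ψ' Bψ
  have Lh := lu hηt h0 h h' Bh'
  have Dψ : DifferentiableOn ℂ ψ' {z : ℂ | 1 < ‖z‖} :=
    Lψ.differentiableOn (Eventually.of_forall (fun k => (hS k).1)) isOpen_ext
  have Dh : DifferentiableOn ℂ h' {z : ℂ | 1 < ‖z‖} :=
    Lh.differentiableOn (Eventually.of_forall (fun k => (hS k).2.2.2.1)) isOpen_ext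
  have LY := YY_lu hηt h0 ψ ψ' Bψ
  have DY : DifferentiableOn ℂ (YY ψ') (ball 0 1) :=
    LY.differentiableOn (Eventually.of_forall (fun k => YY_diff (hS k).1 (hS k).2.2.1)) isOpen_ball
  refine ⟨ψ', h', ⟨Dψ, ?_, ?_, Dh, ?_, ?_⟩, Bh⟩
  · -- injectivity
    intro z hz w hw hzw
    have hz1 : 1 < ‖z‖ := hz
    have hw1 : 1 < ‖w‖ := hw
    obtain ⟨K1, hK1⟩ := hev z hz1
    obtain ⟨K2, hK2⟩ := hev w hw1
    have t1 := (Pψ z K1 hK1).1
    have t2 := (Pψ w K2 hK2).1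
    have t3 : Tendsto (fun k => ‖ψ k z - ψ k w‖) atTop (𝓝 ‖ψ' z - ψ' w‖) := (t1.sub t2).norm
    have hρ : 1 < min ‖z‖ ‖w‖ := lt_min hz1 hw1
    have t4 : ‖z - w‖ * (1 - 1 / (min ‖z‖ ‖w‖) ^ 2) ≤ ‖ψ' z - ψ' w‖ :=
      ge_of_tendsto t3 (Eventually.of_forall (fun k =>
        hDQ (ψ k) (h k) (hS k) (min ‖z‖ ‖w‖) hρ z w (min_le_left _ _) (min_le_right _ _)))
    rw [hzw, sub_self, norm_zero] at t4
    have t5 : 0 < 1 - 1 / (min ‖z‖ ‖w‖) ^ 2 := by
      have : 1 < (min ‖z‖ ‖w‖) ^ 2 := by nlinarith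
      have : 1 / (min ‖z‖ ‖w‖) ^ 2 < 1 := by
        rw [div_lt_one (by linarith)]
        exact this
      linarith
    have t6 : ‖z - w‖ ≤ 0 := by
      by_contra hcon
      push Not at hcon
      have := mul_pos hcon t5
      linarith
    exact sub_eq_zero.1 (norm_le_zero_iff.1 t6)
  · -- the expansion at infinity
    have hd0 : HasDerivAt (YY ψ') (deriv (YY ψ') 0) 0 :=
      (DY.differentiableAt (isOpen_ball.mem_nhds (mem_ball_self one_pos))).hasDerivAt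
    refine ⟨deriv (YY ψ') 0, ?_⟩
    have h1 := hasDerivAt_iff_tendsto_slope.1 hd0
    have h2 : Tendsto (fun z : ℂ => z⁻¹) (Bornology.cobounded ℂ) (𝓝[≠] 0) := by
      rw [tendsto_nhdsWithin_iff]
      refine ⟨tendsto_inv₀_cobounded, ?_⟩
      filter_upwards [tendsto_norm_cobounded_atTop.eventually_gt_atTop 1] with z hz
      have hz0 : z ≠ 0 := by
        intro h0
        rw [h0, norm_zero] at hz
        linarith
      exact inv_ne_zero hz0
    have h3 := h1.comp h2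
    refine h3.congr' ?_
    filter_upwards [tendsto_norm_cobounded_atTop.eventually_gt_atTop 1] with z hz
    have hz0 : z ≠ 0 := by
      intro h0
      rw [h0, norm_zero] at hz
      linarith
    show slope (YY ψ') 0 z⁻¹ = ψ' z - z
    rw [slope_def_field, YY_zero, YY_ne _ (inv_ne_zero hz0), inv_inv, sub_zero]
    field_simp
  · -- the derivative
    intro z hz
    obtain ⟨K, hK⟩ := hev z hz
    have t1 := (Ph z K hK).1
    have t2 : Tendsto (fun k => Complex.exp (h k z)) atTop (𝓝 (Complex.exp (h' z))) :=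
      (Complex.continuous_exp.tendsto _).comp t1
    have t3 := (Lψ.deriv (Eventually.of_forall (fun k => (hS k).1)) isOpen_ext).tendsto_at hz
    have t4 : Tendsto (fun k => Complex.exp (h k z)) atTop (𝓝 (deriv ψ' z)) := by
      refine t3.congr (fun k => ?_)
      exact ((hS k).2.2.2.2.1 z hz).symm
    exact tendsto_nhds_unique t2 t4
  · -- the value at infinity
    rw [Metric.tendsto_nhds]
    intro ε hε
    obtain ⟨k, hk⟩ := (hηt.eventually_lt_const (show (0:ℝ) < ε / 4 by linarith)).exists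
    have hk' := (hS k).2.2.2.2.2
    rw [Metric.tendsto_nhds] at hk'
    filter_upwards [hk' (ε / 2) (by linarith),
      tendsto_norm_cobounded_atTop.eventually_ge_atTop (1 + η k)] with z hz1 hz2
    rw [dist_zero_right] at hz1 ⊢
    have h1 := Bh k z hz2
    calc ‖h' z‖ = ‖(h' z - h k z) + h k z‖ := by rw [sub_add_cancel]
      _ ≤ ‖h' z - h k z‖ + ‖h k z‖ := norm_add_le _ _
      _ < ε := by linarith

end Run7.h749.UM
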